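import Pool.Agent.Helper48.Sey4.FillB

set_option autoImplicit false

open Finset Pool.Agent.Helper63.Sey4

namespace Pool.Agent.Helper48.Sey4

theorem num1 {d x q : ℝ} (hd : 0 ≤ d) (hx : 100000 * (d + 1) ≤ x) (hq : q = 20 / (9 * x)) :
    d * 3 * q + x * (d * 3) * q ^ 2 ≤ 1 / 4 ∧
    3 * (200 * (4 * d + 4)) * q + (x + d) * (d * 3) * q ^ 2 ≤ 1 / 4 := by
  have hx0 : 0 < x := by linarith
  have hq0 : 0 < q := by rw [hq]; positivity
  have hxq : x * q = 20 / 9 := by rw [hq]; field_simp
  have hdq : (d + 1) * q ≤ 1 / 45000 := by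
    have h1 : 100000 * (d + 1) * q ≤ x * q := mul_le_mul_of_nonneg_right hx hq0.le
    rw [hxq] at h1
    linarith
  have hdq0 : 0 ≤ d * q := mul_nonneg hd hq0.le
  have hdq1 : d * q ≤ 1 / 45000 := by nlinarith
  constructor
  · have e : d * 3 * q + x * (d * 3) * q ^ 2 = 3 * (d * q) + 3 * ((x * q) * (d * q)) := by ring
    rw [e, hxq]
    linarith
  · have e : 3 * (200 * (4 * d + 4)) * q + (x + d) * (d * 3) * q ^ 2 =
        2400 * ((d + 1) * q) + 3 * ((x * q) * (d * q)) + 3 * ((d * q) * (d * q)) := by ring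
    rw [e, hxq]
    have h2 : (d * q) * (d * q) ≤ 1 * (1 / 45000) :=
      mul_le_mul (by linarith) hdq1 hdq0 (by norm_num)
    linarith

theorem goalFILL : GoalCANP → GoalFILL := by
  classical
  intro hC V _ H f s Δ D E _ pos neg z τ hS hU hτ hsh hcf hload
  have hd0 : (0 : ℝ) ≤ D := Nat.cast_nonneg D
  have hx : 100000 * ((D : ℝ) + 1) ≤ Δ := by exact_mod_cast hS.hΔ
  have hx0 : (0 : ℝ) < Δ := by linarith
  obtain ⟨num1, num2⟩ := num1 (q := 20 / (9 * (Δ : ℝ))) hd0 hx rfl
  set B1 := BB1 s Δ pos neg z τ H f with hB1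
  set B2 := BB2 s Δ pos neg z τ H f with hB2
  have hnn : ∀ v : XT s neg z,
      2 / ((Nat.card {v' : XT s neg z // f v'.1 = f v.1} : ℕ) : ℝ) ≤ 20 / (9 * (Δ : ℝ)) := by
    intro v
    have h1 := nn_low hS hU (f v.1) (hS.hf v.1)
    rw [← natcard_eq (fun v' : XT s neg z => f v'.1 = f v.1)] at h1
    have h2 : (Δ : ℝ) ≤ ((Nat.card {v' : XT s neg z // f v'.1 = f v.1} : ℕ) : ℝ) + 5 * D := by
      exact_mod_cast h1
    have h3 : (0 : ℝ) < ((Nat.card {v' : XT s neg z // f v'.1 = f v.1} : ℕ) : ℝ) := by linarith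
    rw [div_le_div_iff₀ h3 (by positivity)]
    linarith
  have hc1 : ∀ b ∈ B1, b.card = 1 := by
    intro b hb
    rw [hB1, mem_BB1] at hb
    obtain ⟨p, rfl, _⟩ := hb
    exact card_singleton p
  have hc2 : ∀ b ∈ B2, b.card = 2 := by
    intro b hb
    rw [hB2, mem_BB2] at hb
    obtain ⟨p, q, rfl, _, _, h, _⟩ := hb
    have hpq : p ≠ q := by
      rintro rfl
      exact h rfl
    convert card_pair hpq
  obtain ⟨π, hπ1, hπ2⟩ := hC ℕ (XT s neg z) (YT s Δ pos neg τ) (fun v => f v.1)
    (fun w => w.1.1.val) (fun i => Nat.card {v : XT s neg z // f v.1 = i})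
    (fun c => by convert (natcard_eq (fun v : XT s neg z => f v.1 = c)).symm) (fun c => by
      have h := cards_eq hS hU hτ hsh c
      rw [← natcard_eq (fun v : XT s neg z => f v.1 = c)] at h
      rw [← h]
      congr) (B1 ∪ B2) (by
      intro b hb
      rw [mem_union] at hb
      rcases hb with hb | hb
      · rw [hB1, mem_BB1] at hb
        obtain ⟨p, rfl, h1, _⟩ := hb
        refine ⟨singleton_nonempty p, ?_, ?_⟩
        · intro r hr
          rw [mem_singleton] at hr
          subst hr
          exact h1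
        · intro r hr r' hr' _
          rw [mem_singleton] at hr hr'
          rw [hr, hr']
      · rw [hB2, mem_BB2] at hb
        obtain ⟨p, q, rfl, h1, h2, h3, _⟩ := hb
        refine ⟨insert_nonempty _ _, ?_, ?_⟩
        · intro r hr
          rw [mem_insert, mem_singleton] at hr
          rcases hr with rfl | rfl
          · exact h1
          · exact h2
        · intro r hr r' hr' h
          rw [mem_insert, mem_singleton] at hr hr'
          rcases hr with rfl | rfl <;> rcases hr' with rfl | rfl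
          · rfl
          · exact absurd h h3
          · exact absurd h.symm h3
          · rfl) (by
      intro v
      have hR : ∀ b : Finset (XT s neg z × YT s Δ pos neg τ), (∃ w, (v, w) ∈ b) →
          ∃ p ∈ b, (fun p : XT s neg z × YT s Δ pos neg τ => p.1 = v) p :=
        fun b ⟨w, h⟩ => ⟨_, h, rfl⟩
      have := sum_bound B1 B2 (fun b => ∃ w, (v, w) ∈ b)
        (fun p => 2 / ((Nat.card {v' : XT s neg z // f v'.1 = f p.1.1} : ℕ) : ℝ))
        (20 / (9 * (Δ : ℝ))) (by positivity) (fun _ => by positivity)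
        (fun b _ a _ => hnn a.1) hc1 hc2 (D * 3) (Δ * (D * 3))
        (le_trans (b1_card (H := H) (f := f) _ _ hR)
          (b1v_card hS hU.hz v _ fun _ h => h))
        (b2_card hS _ _ hR Δ (pv_card v _ fun _ h => h))
      push_cast at this
      refine le_trans (le_trans (le_of_eq ?_) this) num1
      refine sum_congr ?_ (fun _ _ => rfl)
      ext b
      simp only [mem_filter, mem_union]) (by
      intro w
      have hR : ∀ b : Finset (XT s neg z × YT s Δ pos neg τ), (∃ v, (v, w) ∈ b) →
          ∃ p ∈ b, (fun p : XT s neg z × YT s Δ pos neg τ => p.2 = w) p :=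
        fun b ⟨v, h⟩ => ⟨_, h, rfl⟩
      have := sum_bound B1 B2 (fun b => ∃ v, (v, w) ∈ b)
        (fun p => 2 / ((Nat.card {v' : XT s neg z // f v'.1 = f p.1.1} : ℕ) : ℝ))
        (20 / (9 * (Δ : ℝ))) (by positivity) (fun _ => by positivity)
        (fun b _ a _ => hnn a.1) hc1 hc2 (3 * (200 * (4 * D + 4))) ((Δ + D) * (D * 3))
        (le_trans (b1_card (H := H) (f := f) _ _ hR)
          (b1w_card hτ hload w _ fun _ h => h))
        (b2_card hS _ _ hR (Δ + D) (pw_card hS w _ fun _ h => h))
      push_cast at this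
      refine le_trans (le_trans (le_of_eq ?_) this) num2
      refine sum_congr ?_ (fun _ _ => rfl)
      ext b
      simp only [mem_filter, mem_union])
  -- the rows
  set row : V → ℕ := fun v => if h : IsS s neg z v then rowz pos neg τ (Classical.choose h)
    else (π ⟨v, h⟩).1.2.val with hrow
  have row_sp : ∀ j, SpI s neg j → row (z j) = rowz pos neg τ j := by
    intro j hj
    have h : IsS s neg z (z j) := ⟨j, hj, rfl⟩
    have h1 : row (z j) = rowz pos neg τ (Classical.choose h) := dif_pos h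
    rw [h1, hU.hz (Classical.choose_spec h).2]
  have row_ns : ∀ v (h : ¬ IsS s neg z v), row v = (π ⟨v, h⟩).1.2.val := fun v h => dif_neg h
  have cls_ns : ∀ v (h : ¬ IsS s neg z v), (π ⟨v, h⟩).1.1.val = f v := fun v h => hπ1 ⟨v, h⟩
  have nblk : ∀ v, ¬ IsS s neg z v → ¬ Blk s pos neg τ (f v) (row v) := by
    intro v h
    rw [row_ns v h, ← cls_ns v h]
    exact (π ⟨v, h⟩).2
  have blk_sp : ∀ j, SpI s neg j → Blk s pos neg τ (pos j.1) (rowz pos neg τ j) := by
    rintro ⟨e, b, c⟩ hj
    cases b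
    · exact Or.inl ⟨e, rfl, Or.inl rfl⟩
    · have hn : neg e < s := by
        rcases hj with h | h
        · exact absurd h (by simp)
        · exact h
      cases c
      · exact Or.inl ⟨e, rfl, Or.inr ⟨hn, Or.inl rfl⟩⟩
      · exact Or.inl ⟨e, rfl, Or.inr ⟨hn, Or.inr rfl⟩⟩
  have fz : ∀ j, f (z j) = pos j.1 := fun j => hU.hfz j.1 j.2.1 j.2.2
  have sp0 : ∀ e c, SpI s neg (e, false, c) := fun e c => Or.inl rfl
  have sp1 : ∀ e c, neg e < s → SpI s neg (e, true, c) := fun e c h => Or.inr h
  -- one special and one other vertex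
  have far1 : ∀ j, SpI s neg j → ∀ v, ¬ IsS s neg z v → f (z j) ≠ f v → H.Adj (z j) v →
      ¬ Nr Δ (rowz pos neg τ j) (row v) := by
    intro j hj v hv hf hadj hnr
    rw [row_ns v hv] at hnr
    have hmem : ({(⟨v, hv⟩, π ⟨v, hv⟩)} : Finset (XT s neg z × YT s Δ pos neg τ)) ∈
        B1 ∪ B2 := by
      refine mem_union_left _ ?_
      rw [hB1, mem_BB1]
      exact ⟨_, rfl, (cls_ns v hv).symm, j, hj, hf, hadj, hnr⟩
    obtain ⟨p, hp, hne⟩ := hπ2 _ hmem
    rw [mem_singleton] at hp
    subst hp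
    exact hne rfl
  refine ⟨row, ?_, ?_, ?_, ?_, ?_, ?_, ?_, ?_⟩
  · intro v
    by_cases hv : IsS s neg z v
    · obtain ⟨j, hj, rfl⟩ := hv
      rw [row_sp j hj]
      exact rowz_lt hτ j
    · rw [row_ns v hv]
      exact (π ⟨v, hv⟩).1.2.2
  · intro e c
    rw [row_sp _ (sp0 e c)]
    rfl
  · intro e hn
    rw [row_sp _ (sp1 e _ hn)]
    rfl
  · intro e hn
    rw [row_sp _ (sp1 e _ hn)]
    rfl
  · intro u v huv hf hr
    by_cases hu : IsS s neg z u
    · obtain ⟨j, hj, rfl⟩ := hu
      rw [row_sp j hj] at hr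
      by_cases hv : IsS s neg z v
      · obtain ⟨k, hk, rfl⟩ := hv
        rw [row_sp k hk] at hr
        obtain ⟨e, b, c⟩ := j
        obtain ⟨e', b', c'⟩ := k
        rw [fz, fz] at hf
        dsimp only at hf
        have h1 := rowz_div (pos := pos) (neg := neg) (τ := τ) (e, b, c)
        have h2 := rowz_div (pos := pos) (neg := neg) (τ := τ) (e', b', c')
        dsimp only at h1 h2
        have h3 : e = e' := by
          by_contra hne
          exact hsh e e' hne (Or.inl hf) (by rw [← h1, ← h2, hr])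
        subst h3
        rcases rowz_eq hr with ⟨rfl, rfl⟩ | ⟨rfl, rfl⟩
        · refine ⟨e, c, rfl, ?_⟩
          have : c' = !c := by
            cases c <;> cases c' <;> first | rfl | exact absurd rfl huv
          rw [this]
        · exact absurd rfl huv
      · exfalso
        apply nblk v hv
        rw [← hf, ← hr, fz]
        exact blk_sp j hj
    · by_cases hv : IsS s neg z v
      · exfalso
        obtain ⟨k, hk, rfl⟩ := hv
        rw [row_sp k hk] at hr
        apply nblk u hu
        rw [hf, hr, fz]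
        exact blk_sp k hk
      · exfalso
        rw [row_ns u hu, row_ns v hv] at hr
        have h1 : π ⟨u, hu⟩ = π ⟨v, hv⟩ := by
          refine Subtype.ext (Prod.ext (Fin.ext ?_) (Fin.ext hr))
          rw [cls_ns u hu, cls_ns v hv, hf]
        have h2 := π.injective h1
        exact huv (congrArg Subtype.val h2)
  · intro i hi g hg
    by_cases hb : Blk s pos neg τ i g
    · rcases hb with ⟨e, he, h | ⟨hn, h | h⟩⟩ | ⟨e, he, h⟩
      · left
        refine ⟨z (e, false, false), by rw [fz]; exact he, ?_⟩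
        rw [row_sp _ (sp0 e _), h]
        rfl
      · left
        refine ⟨z (e, true, false), by rw [fz]; exact he, ?_⟩
        rw [row_sp _ (sp1 e _ hn), h]
        rfl
      · left
        refine ⟨z (e, true, true), by rw [fz]; exact he, ?_⟩
        rw [row_sp _ (sp1 e _ hn), h]
        rfl
      · right
        exact ⟨e, he, h.symm⟩
    · left
      obtain ⟨v, hv⟩ := π.surjective ⟨(⟨i, hi⟩, ⟨g, hg⟩), hb⟩
      refine ⟨v.1, ?_, ?_⟩
      · rw [← cls_ns v.1 v.2, Subtype.coe_eta, hv]
      · rw [row_ns v.1 v.2, Subtype.coe_eta, hv]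
  · intro e v hf hr
    by_cases hv : IsS s neg z v
    · obtain ⟨j, hj, rfl⟩ := hv
      rw [row_sp j hj] at hr
      rw [fz] at hf
      have h1 := rowz_div (pos := pos) (neg := neg) (τ := τ) j
      rw [hr, dr_div] at h1
      have h2 : j.1 ≠ e := by
        intro h
        rw [h] at hf
        exact hU.hne e hf.symm
      exact hsh j.1 e h2 (Or.inr (Or.inr (Or.inl hf))) h1.symm
    · exact nblk v hv (Or.inr ⟨e, hf.symm, hr⟩)
  · intro u v hf hadj hnr
    by_cases hu : IsS s neg z u
    · obtain ⟨j, hj, rfl⟩ := hu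
      rw [row_sp j hj] at hnr
      by_cases hv : IsS s neg z v
      · obtain ⟨k, hk, rfl⟩ := hv
        rw [row_sp k hk] at hnr
        have hne : j.1 ≠ k.1 := by
          intro h
          apply hf
          rw [fz, fz, h]
        apply hcf j.1 k.1 (z j) (z k) hne (spI_sp hj) (spI_sp hk) hf hadj
        have := nr_div (rowz_lt' hτ j) (rowz_lt' hτ k) hnr
        rw [rowz_div, rowz_div] at this
        exact this
      · exact far1 j hj v hv hf hadj hnr
    · by_cases hv : IsS s neg z v
      · obtain ⟨k, hk, rfl⟩ := hv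
        rw [row_sp k hk] at hnr
        exact far1 k hk u hu hf.symm hadj.symm (nr_symm hnr)
      · rw [row_ns u hu, row_ns v hv] at hnr
        have hmem : ({(⟨u, hu⟩, π ⟨u, hu⟩), (⟨v, hv⟩, π ⟨v, hv⟩)} :
            Finset (XT s neg z × YT s Δ pos neg τ)) ∈ B1 ∪ B2 := by
          refine mem_union_right _ ?_
          rw [hB2, mem_BB2]
          exact ⟨(⟨u, hu⟩, π ⟨u, hu⟩), (⟨v, hv⟩, π ⟨v, hv⟩), by congr, (cls_ns u hu).symm, (cls_ns v hv).symm, hf, hadj, hnr⟩
        obtain ⟨p, hp, hne⟩ := hπ2 _ hmem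
        rw [mem_insert, mem_singleton] at hp
        rcases hp with rfl | rfl
        · exact hne rfl
        · exact hne rfl

end Pool.Agent.Helper48.Sey4
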