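import Pool.Agent.Helper63.Sey4.Goals

set_option autoImplicit false

open Finset Pool.Agent.Helper63.Sey4

namespace Pool.Agent.Helper48.Sey4

theorem natcard_eq {α : Type} [Fintype α] (P : α → Prop) [DecidablePred P] :
    Nat.card {a // P a} = (univ.filter P).card := by
  rw [Nat.card_eq_fintype_card, Fintype.card_subtype]

theorem nr_symm {m a b : ℕ} (h : Nr m a b) : Nr m b a := by
  rcases h with h | h | h
  · exact Or.inl h.symm
  · exact Or.inr (Or.inr h)
  · exact Or.inr (Or.inl h)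

theorem nr_div1 {Δ a b : ℕ} (ha : a < 3 * (Δ / 3)) (hb : b < 3 * (Δ / 3))
    (h : (a + 1) % Δ = b) : Nr (Δ / 3) (a / 3) (b / 3) := by
  have hD : 3 * (Δ / 3) ≤ Δ := Nat.mul_div_le Δ 3
  have hb' : b / 3 < Δ / 3 := by omega
  rcases Nat.lt_or_ge (a + 1) Δ with h1 | h1
  · rw [Nat.mod_eq_of_lt h1] at h
    rcases (by omega : b / 3 = a / 3 ∨ b / 3 = a / 3 + 1) with h2 | h2
    · exact Or.inl h2.symm
    · refine Or.inr (Or.inl ?_)
      rw [← h2, Nat.mod_eq_of_lt hb']
  · have h2 : a + 1 = Δ := by omega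
    rw [h2, Nat.mod_self] at h
    have h3 : a / 3 + 1 = Δ / 3 := by omega
    refine Or.inr (Or.inl ?_)
    rw [h3, Nat.mod_self]
    omega

theorem nr_div {Δ a b : ℕ} (ha : a < 3 * (Δ / 3)) (hb : b < 3 * (Δ / 3)) (h : Nr Δ a b) :
    Nr (Δ / 3) (a / 3) (b / 3) := by
  rcases h with h | h | h
  · exact Or.inl (by rw [h])
  · exact nr_div1 ha hb h
  · exact nr_symm (nr_div1 hb ha h)

open Classical in
theorem nr_card (m a : ℕ) : (univ.filter (fun g : Fin m => Nr m a g.val)).card ≤ 3 := by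
  have h : (univ.filter (fun g : Fin m => Nr m a g.val)) ⊆
      (univ.filter (fun g : Fin m => g.val = a)) ∪
      ((univ.filter (fun g : Fin m => g.val = (a + 1) % m)) ∪
        (univ.filter (fun g : Fin m => (g.val + 1) % m = a))) := by
    intro g hg
    simp only [mem_filter, mem_univ, true_and, mem_union] at hg ⊢
    rcases hg with hg | hg | hg
    · exact Or.inl hg.symm
    · exact Or.inr (Or.inl hg.symm)
    · exact Or.inr (Or.inr hg)
  have h1 : (univ.filter (fun g : Fin m => g.val = a)).card ≤ 1 := by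
    rw [card_le_one]
    intro x hx y hy
    simp only [mem_filter, mem_univ, true_and] at hx hy
    exact Fin.ext (by omega)
  have h2 : (univ.filter (fun g : Fin m => g.val = (a + 1) % m)).card ≤ 1 := by
    rw [card_le_one]
    intro x hx y hy
    simp only [mem_filter, mem_univ, true_and] at hx hy
    exact Fin.ext (by omega)
  have h3 : (univ.filter (fun g : Fin m => (g.val + 1) % m = a)).card ≤ 1 := by
    rw [card_le_one]
    intro x hx y hy
    simp only [mem_filter, mem_univ, true_and] at hx hy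
    have e : (x.val + 1) % m = (y.val + 1) % m := by rw [hx, hy]
    have e2 : x.val ≡ y.val [MOD m] := Nat.ModEq.add_right_cancel' 1 e
    exact Fin.ext (Nat.ModEq.eq_of_lt_of_lt e2 x.2 y.2)
  calc _ ≤ _ := card_le_card h
    _ ≤ _ := card_union_le _ _
    _ ≤ 1 + (1 + 1) := Nat.add_le_add h1 (le_trans (card_union_le _ _) (Nat.add_le_add h2 h3))

section Defs
variable {V E : Type} (s : ℕ) (pos neg : E → ℕ) (z : E × Bool × Bool → V) (τ : E → ℕ)

/-- the row of a special vertex -/
def rowz : E × Bool × Bool → ℕ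
  | (e, false, _) => dr pos neg τ e
  | (e, true, false) => md τ e
  | (e, true, true) => fr pos neg τ e

/-- indices of special vertices -/
def SpI (j : E × Bool × Bool) : Prop := j.2.1 = false ∨ neg j.1 < s

/-- special vertices -/
def IsS (v : V) : Prop := ∃ j, SpI s neg j ∧ z j = v

/-- blocked cells -/
def Blk (i g : ℕ) : Prop :=
  (∃ e, pos e = i ∧ (g = dr pos neg τ e ∨ (neg e < s ∧ (g = md τ e ∨ g = fr pos neg τ e)))) ∨
    ∃ e, neg e = i ∧ g = dr pos neg τ e

/-- rows of a unit -/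
def rr (x : E × Fin 3) : ℕ :=
  if x.2 = 0 then dr pos neg τ x.1 else if x.2 = 1 then md τ x.1 else fr pos neg τ x.1

/-- indices of blocked rows -/
def PBI (i : ℕ) (x : E × Fin 3) : Prop :=
  (pos x.1 = i ∧ (x.2 = 0 ∨ neg x.1 < s)) ∨ (neg x.1 = i ∧ x.2 = 0)

/-- indices of special vertices of class `i` -/
def SJ (i : ℕ) (j : E × Bool × Bool) : Prop := SpI s neg j ∧ pos j.1 = i

end Defs

section Lemmas
variable {V E : Type} {s : ℕ} {pos neg : E → ℕ} {z : E × Bool × Bool → V} {τ : E → ℕ}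

theorem spI_sp {j : E × Bool × Bool} (h : SpI s neg j) : Sp s neg z j.1 (z j) := by
  obtain ⟨e, b, c⟩ := j
  cases b
  · exact Or.inl ⟨c, rfl⟩
  · rcases h with h | h
    · exact absurd h (by simp)
    · exact Or.inr ⟨h, c, rfl⟩

theorem dr_div (e : E) : dr pos neg τ e / 3 = τ e := by
  unfold dr; split_ifs <;> omega

theorem md_div (e : E) : md τ e / 3 = τ e := by
  unfold md; omega

theorem fr_div (e : E) : fr pos neg τ e / 3 = τ e := by
  unfold fr; split_ifs <;> omega

theorem dr_ne_md (e : E) : dr pos neg τ e ≠ md τ e := by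
  unfold dr md; split_ifs <;> omega

theorem dr_ne_fr (e : E) : dr pos neg τ e ≠ fr pos neg τ e := by
  unfold dr fr; split_ifs <;> omega

theorem md_ne_fr (e : E) : md τ e ≠ fr pos neg τ e := by
  unfold md fr; split_ifs <;> omega

theorem rowz_div (j : E × Bool × Bool) : rowz pos neg τ j / 3 = τ j.1 := by
  obtain ⟨e, b, c⟩ := j
  cases b
  · exact dr_div e
  · cases c
    · exact md_div e
    · exact fr_div e

theorem rr_div (x : E × Fin 3) : rr pos neg τ x / 3 = τ x.1 := by
  unfold rr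
  split_ifs
  · exact dr_div _
  · exact md_div _
  · exact fr_div _

theorem rowz_lt {Δ : ℕ} (hτ : ∀ e, 3 * τ e + 3 ≤ Δ) (j : E × Bool × Bool) :
    rowz pos neg τ j < Δ := by
  have h1 := rowz_div (pos := pos) (neg := neg) (τ := τ) j
  have h2 := hτ j.1
  omega

theorem rowz_lt' {Δ : ℕ} (hτ : ∀ e, 3 * τ e + 3 ≤ Δ) (j : E × Bool × Bool) :
    rowz pos neg τ j < 3 * (Δ / 3) := by
  have h1 := rowz_div (pos := pos) (neg := neg) (τ := τ) j
  have h2 := hτ j.1
  omega

theorem rowz_eq {e : E} {b c b' c' : Bool}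
    (h : rowz pos neg τ (e, b, c) = rowz pos neg τ (e, b', c')) :
    (b = false ∧ b' = false) ∨ (b = b' ∧ c = c') := by
  cases b <;> cases b'
  · exact Or.inl ⟨rfl, rfl⟩
  · cases c'
    · exact absurd h (dr_ne_md e)
    · exact absurd h (dr_ne_fr e)
  · cases c
    · exact absurd h.symm (dr_ne_md e)
    · exact absurd h.symm (dr_ne_fr e)
  · cases c <;> cases c'
    · exact Or.inr ⟨rfl, rfl⟩
    · exact absurd h (md_ne_fr e)
    · exact absurd h.symm (md_ne_fr e)
    · exact Or.inr ⟨rfl, rfl⟩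

theorem rr_inj {e : E} {k k' : Fin 3} (h : rr pos neg τ (e, k) = rr pos neg τ (e, k')) :
    k = k' := by
  have a1 := dr_ne_md (pos := pos) (neg := neg) (τ := τ) e
  have a2 := dr_ne_fr (pos := pos) (neg := neg) (τ := τ) e
  have a3 := md_ne_fr (pos := pos) (neg := neg) (τ := τ) e
  unfold rr at h
  dsimp only at h
  fin_cases k <;> fin_cases k' <;> simp at h ⊢ <;>
    (first | exact a1 h | exact a2 h | exact a3 h | exact a1 h.symm | exact a2 h.symm |
      exact a3 h.symm)

open Classical in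
theorem blk_image [Fintype E] {Δ : ℕ} (hτ : ∀ e, 3 * τ e + 3 ≤ Δ) (i : ℕ) :
    (range Δ).filter (fun g => Blk s pos neg τ i g) =
      (univ.filter (PBI s pos neg i)).image (rr pos neg τ) := by
  ext g
  simp only [mem_filter, mem_range, mem_image, mem_univ, true_and]
  constructor
  · rintro ⟨_, h⟩
    rcases h with ⟨e, he, h | ⟨hn, h | h⟩⟩ | ⟨e, he, h⟩
    · exact ⟨(e, 0), Or.inl ⟨he, Or.inl rfl⟩, by simp [rr, h]⟩
    · exact ⟨(e, 1), Or.inl ⟨he, Or.inr hn⟩, by simp [rr, h]⟩
    · exact ⟨(e, 2), Or.inl ⟨he, Or.inr hn⟩, by simp [rr, h]⟩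
    · exact ⟨(e, 0), Or.inr ⟨he, rfl⟩, by simp [rr, h]⟩
  · rintro ⟨⟨e, k⟩, h, rfl⟩
    have h1 := rr_div (pos := pos) (neg := neg) (τ := τ) (e, k)
    have h2 := hτ e
    dsimp only at h1
    refine ⟨by omega, ?_⟩
    rcases h with ⟨h, h' | h'⟩ | ⟨h, h'⟩
    · dsimp only at h h'
      subst h'
      exact Or.inl ⟨e, h, Or.inl (by simp [rr])⟩
    · dsimp only at h h'
      refine Or.inl ⟨e, h, ?_⟩
      fin_cases k
      · exact Or.inl (by simp [rr])
      · exact Or.inr ⟨h', Or.inl (by simp [rr])⟩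
      · exact Or.inr ⟨h', Or.inr (by simp [rr])⟩
    · dsimp only at h h'
      subst h'
      exact Or.inr ⟨e, h, by simp [rr]⟩

open Classical in
theorem rr_injOn [Fintype E] (i : ℕ) (hi : i < s)
    (hsh : ∀ e e', e ≠ e' → Share s pos neg e e' → τ e ≠ τ e') :
    Set.InjOn (rr pos neg τ) (univ.filter (PBI s pos neg i) : Finset (E × Fin 3)) := by
  rintro ⟨e, k⟩ h ⟨e', k'⟩ h' heq
  simp only [coe_filter, mem_univ, true_and, Set.mem_ofPred_eq] at h h'
  have h1 := rr_div (pos := pos) (neg := neg) (τ := τ) (e, k)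
  have h2 := rr_div (pos := pos) (neg := neg) (τ := τ) (e', k')
  dsimp only at h1 h2
  have h3 : τ e = τ e' := by rw [← h1, ← h2, heq]
  have h4 : e = e' := by
    by_contra hne
    refine hsh e e' hne ?_ h3
    unfold PBI at h h'
    dsimp only at h h'
    rcases h with ⟨a, _⟩ | ⟨a, _⟩ <;> rcases h' with ⟨b, _⟩ | ⟨b, _⟩
    · exact Or.inl (by rw [a, b])
    · exact Or.inr (Or.inr (Or.inl (by rw [a, b])))
    · exact Or.inr (Or.inr (Or.inr (by rw [a, b])))
    · exact Or.inr (Or.inl ⟨by rw [a, b], by rw [a]; exact hi⟩)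
  subst h4
  rw [rr_inj heq]

open Classical in
theorem count1 [Fintype E] (i : ℕ) (hne : ∀ e, neg e ≠ pos e) :
    (univ.filter (PBI s pos neg i)).card + (univ.filter (fun e => pos e = i)).card =
      (univ.filter (SJ s pos neg i)).card + (univ.filter (fun e => neg e = i)).card := by
  rw [card_filter, card_filter, card_filter, card_filter, Fintype.sum_prod_type,
    Fintype.sum_prod_type, ← sum_add_distrib, ← sum_add_distrib]
  refine sum_congr rfl fun e _ => ?_
  rw [Fin.sum_univ_three, Fintype.sum_prod_type, Fintype.sum_bool, Fintype.sum_bool,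
    Fintype.sum_bool]
  unfold PBI SJ SpI
  have := hne e
  by_cases h1 : pos e = i
  · have h2 : neg e ≠ i := by rw [← h1]; exact this
    by_cases h3 : neg e < s <;> simp [h1, h2, h3]
  · by_cases h2 : neg e = i
    · simp [h1, h2]
    · simp [h1, h2]

open Classical in
theorem count2 [Fintype E] (i : ℕ) :
    (univ.filter (SJ s pos neg i)).card ≤ 4 * (univ.filter (fun e => pos e = i)).card := by
  rw [card_filter, card_filter, Fintype.sum_prod_type, mul_sum]
  refine sum_le_sum fun e _ => ?_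
  rw [Fintype.sum_prod_type, Fintype.sum_bool, Fintype.sum_bool, Fintype.sum_bool]
  unfold SJ SpI
  by_cases h1 : pos e = i
  · by_cases h3 : neg e < s <;> simp [h1, h3]
  · simp [h1]

end Lemmas

end Pool.Agent.Helper48.Sey4
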