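import Pool.Agent.Helper48.Sey4.FillA

set_option autoImplicit false
set_option linter.unusedSectionVars false

open Finset Pool.Agent.Helper63.Sey4

namespace Pool.Agent.Helper48.Sey4

section Main
variable {V E : Type} [Fintype V] [Fintype E] {H : SimpleGraph V} {f : V → ℕ} {s Δ D : ℕ}
  {pos neg : E → ℕ} {z : E × Bool × Bool → V} {τ : E → ℕ}

/-- the vertices which are not special -/
abbrev XT (s : ℕ) (neg : E → ℕ) (z : E × Bool × Bool → V) : Type :=
  {v : V // ¬ IsS s neg z v}

/-- the free cells -/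
abbrev YT (s Δ : ℕ) (pos neg τ : E → ℕ) : Type :=
  {c : Fin s × Fin Δ // ¬ Blk s pos neg τ c.1.val c.2.val}

open Classical in
theorem cardX (i : ℕ) (hz : Function.Injective z) (hfz : ∀ e b c, f (z (e, b, c)) = pos e) :
    (univ.filter (fun v : XT s neg z => f v.1 = i)).card + (univ.filter (SJ s pos neg i)).card =
      Nat.card {v // f v = i} := by
  rw [natcard_eq]
  have h1 : (univ.filter (fun v : XT s neg z => f v.1 = i)).card =
      (univ.filter (fun v : V => f v = i ∧ ¬ IsS s neg z v)).card := by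
    rw [← card_image_of_injective _ (Subtype.val_injective (p := fun v => ¬ IsS s neg z v))]
    congr 1
    ext v
    simp only [mem_image, mem_filter, mem_univ, true_and, Subtype.exists, exists_and_left,
      exists_prop, exists_eq_right_right]
  have h2 : (univ.filter (SJ s pos neg i)).card =
      (univ.filter (fun v : V => f v = i ∧ IsS s neg z v)).card := by
    rw [← card_image_of_injective _ hz]
    congr 1
    ext v
    simp only [mem_image, mem_filter, mem_univ, true_and]
    constructor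
    · rintro ⟨⟨e, b, c⟩, ⟨h, h'⟩, rfl⟩
      exact ⟨by rw [hfz]; exact h', _, h, rfl⟩
    · rintro ⟨h, ⟨e, b, c⟩, h', rfl⟩
      exact ⟨_, ⟨h', by rw [← h, hfz]⟩, rfl⟩
  rw [h1, h2, add_comm, ← filter_filter, ← filter_filter]
  exact card_filter_add_card_filter_not (s := univ.filter (fun v : V => f v = i))
    (fun v => IsS s neg z v)

open Classical in
theorem cardY (i : ℕ) (hi : i < s) (hτ : ∀ e, 3 * τ e + 3 ≤ Δ)
    (hsh : ∀ e e', e ≠ e' → Share s pos neg e e' → τ e ≠ τ e') :
    (univ.filter (fun w : YT s Δ pos neg τ => w.1.1.val = i)).card +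
      (univ.filter (PBI s pos neg i)).card = Δ := by
  have h1 : (univ.filter (fun w : YT s Δ pos neg τ => w.1.1.val = i)).card =
      ((range Δ).filter (fun g => ¬ Blk s pos neg τ i g)).card := by
    rw [← card_image_of_injOn (s := univ.filter (fun w : YT s Δ pos neg τ => w.1.1.val = i))
      (f := fun w => w.1.2.val)]
    · congr 1
      ext g
      simp only [mem_image, mem_filter, mem_univ, true_and, mem_range]
      constructor
      · rintro ⟨w, h, rfl⟩
        refine ⟨w.1.2.2, ?_⟩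
        rw [← h]
        exact w.2
      · rintro ⟨h, h'⟩
        exact ⟨⟨(⟨i, hi⟩, ⟨g, h⟩), h'⟩, rfl, rfl⟩
    · intro w hw w' hw' h
      simp only [coe_filter, mem_univ, true_and, Set.mem_ofPred_eq] at hw hw'
      dsimp only at h
      exact Subtype.ext (Prod.ext (Fin.ext (by rw [hw, hw'])) (Fin.ext h))
  have h2 : (univ.filter (PBI s pos neg i)).card =
      ((range Δ).filter (fun g => Blk s pos neg τ i g)).card := by
    rw [blk_image hτ i, card_image_of_injOn (rr_injOn i hi hsh)]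
  rw [h1, h2, add_comm]
  have h3 := card_filter_add_card_filter_not (s := range Δ) (fun g => Blk s pos neg τ i g)
  rw [card_range] at h3
  exact h3

open Classical in
theorem cards_eq (hS : Setting V H f s Δ D) (hU : Units H f s Δ D E pos neg z)
    (hτ : ∀ e, 3 * τ e + 3 ≤ Δ)
    (hsh : ∀ e e', e ≠ e' → Share s pos neg e e' → τ e ≠ τ e') (i : ℕ) :
    (univ.filter (fun w : YT s Δ pos neg τ => w.1.1.val = i)).card =
      (univ.filter (fun v : XT s neg z => f v.1 = i)).card := by
  rcases Nat.lt_or_ge i s with hi | hi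
  · have a1 := cardX (s := s) (neg := neg) (pos := pos) i hU.hz hU.hfz
    have a2 := cardY (neg := neg) (pos := pos) i hi hτ hsh
    have a3 := count1 (s := s) (neg := neg) (pos := pos) i hU.hne
    have a4 := hU.hcount i hi
    rw [natcard_eq (fun e => neg e = i), natcard_eq (fun e => pos e = i)] at a4
    omega
  · have e1 : (univ.filter (fun w : YT s Δ pos neg τ => w.1.1.val = i)) = ∅ := by
      rw [filter_eq_empty_iff]
      intro w _ h
      have := w.1.1.2
      omega
    have e2 : (univ.filter (fun v : XT s neg z => f v.1 = i)) = ∅ := by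
      rw [filter_eq_empty_iff]
      intro v _ h
      have := hS.hf v.1
      omega
    rw [e1, e2]
    rfl

open Classical in
theorem nn_low (hS : Setting V H f s Δ D) (hU : Units H f s Δ D E pos neg z) (i : ℕ)
    (hi : i < s) : Δ ≤ (univ.filter (fun v : XT s neg z => f v.1 = i)).card + 5 * D := by
  have a1 := cardX (s := s) (neg := neg) (pos := pos) i hU.hz hU.hfz
  have a2 := count2 (s := s) (neg := neg) (pos := pos) i
  have a3 := hS.hlow i hi
  have a4 := hU.hposD i hi
  rw [natcard_eq (fun e => pos e = i)] at a4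
  omega

open Classical in
theorem cell_card (c a : ℕ) :
    (univ.filter (fun w : YT s Δ pos neg τ => w.1.1.val = c ∧ Nr Δ a w.1.2.val)).card ≤ 3 := by
  refine le_trans ?_ (nr_card Δ a)
  refine card_le_card_of_injOn (fun w => w.1.2) ?_ ?_
  · intro w hw
    simp only [coe_filter, mem_univ, true_and, Set.mem_ofPred_eq] at hw ⊢
    exact hw.2
  · intro w hw w' hw' h
    simp only [coe_filter, mem_univ, true_and, Set.mem_ofPred_eq] at hw hw'
    exact Subtype.ext (Prod.ext (Fin.ext (by rw [hw.1, hw'.1])) h)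

/-- vertex and cell have the same class -/
def Cls (f : V → ℕ) (p : XT s neg z × YT s Δ pos neg τ) : Prop := f p.1.1 = p.2.1.1.val

/-- conflict with a special vertex -/
def Bad1 (H : SimpleGraph V) (f : V → ℕ) (p : XT s neg z × YT s Δ pos neg τ) : Prop :=
  ∃ j, SpI s neg j ∧ f (z j) ≠ f p.1.1 ∧ H.Adj (z j) p.1.1 ∧
    Nr Δ (rowz pos neg τ j) p.2.1.2.val

/-- conflict of two vertices which are not special -/
def Bad2 (H : SimpleGraph V) (f : V → ℕ) (p q : XT s neg z × YT s Δ pos neg τ) : Prop :=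
  f p.1.1 ≠ f q.1.1 ∧ H.Adj p.1.1 q.1.1 ∧ Nr Δ p.2.1.2.val q.2.1.2.val

theorem bad2_symm {p q : XT s neg z × YT s Δ pos neg τ} (h : Bad2 H f p q) : Bad2 H f q p :=
  ⟨h.1.symm, h.2.1.symm, nr_symm h.2.2⟩

open Classical in
theorem q_card (hS : Setting V H f s Δ D) (p : XT s neg z × YT s Δ pos neg τ) :
    (univ.filter (fun q : XT s neg z × YT s Δ pos neg τ => Cls f q ∧ Bad2 H f p q)).card ≤
      D * 3 := by
  set N := univ.filter (fun v : XT s neg z => f v.1 ≠ f p.1.1 ∧ H.Adj p.1.1 v.1) with hN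
  have hNc : N.card ≤ D := by
    refine le_trans ?_ (hS.hout p.1.1)
    rw [natcard_eq]
    refine card_le_card_of_injOn (fun v => v.1) ?_ ?_
    · intro v hv
      simp only [hN, coe_filter, mem_univ, true_and, Set.mem_ofPred_eq] at hv ⊢
      exact hv
    · intro v _ v' _ h
      exact Subtype.ext h
  have hsub : (univ.filter (fun q : XT s neg z × YT s Δ pos neg τ => Cls f q ∧ Bad2 H f p q)) ⊆
      N.biUnion (fun v => (univ.filter (fun w : YT s Δ pos neg τ => w.1.1.val = f v.1 ∧
        Nr Δ p.2.1.2.val w.1.2.val)).image (fun w => (v, w))) := by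
    intro q hq
    simp only [mem_filter, mem_univ, true_and] at hq
    simp only [mem_biUnion, mem_image, mem_filter, mem_univ, true_and, hN]
    exact ⟨q.1, ⟨hq.2.1.symm, hq.2.2.1⟩, q.2, ⟨hq.1.symm, hq.2.2.2⟩, rfl⟩
  refine le_trans (card_le_card hsub) (le_trans card_biUnion_le ?_)
  refine le_trans (sum_le_card_nsmul _ _ 3 ?_) ?_
  · intro v _
    exact le_trans card_image_le (cell_card _ _)
  · rw [smul_eq_mul]
    exact Nat.mul_le_mul_right 3 hNc

open Classical in
/-- bad sets of the first kind -/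
noncomputable def BB1 (s Δ : ℕ) (pos neg : E → ℕ) (z : E × Bool × Bool → V) (τ : E → ℕ)
    (H : SimpleGraph V) (f : V → ℕ) : Finset (Finset (XT s neg z × YT s Δ pos neg τ)) :=
  univ.filter (fun b => ∃ p, b = {p} ∧ Cls f p ∧ Bad1 H f p)

open Classical in
/-- bad sets of the second kind -/
noncomputable def BB2 (s Δ : ℕ) (pos neg : E → ℕ) (z : E × Bool × Bool → V) (τ : E → ℕ)
    (H : SimpleGraph V) (f : V → ℕ) : Finset (Finset (XT s neg z × YT s Δ pos neg τ)) :=
  univ.filter (fun b => ∃ p q, b = {p, q} ∧ Cls f p ∧ Cls f q ∧ Bad2 H f p q)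

theorem mem_BB1 (b : Finset (XT s neg z × YT s Δ pos neg τ)) :
    b ∈ BB1 s Δ pos neg z τ H f ↔ ∃ p, b = {p} ∧ Cls f p ∧ Bad1 H f p := by
  unfold BB1
  simp only [mem_filter, mem_univ, true_and]

open Classical in
theorem mem_BB2 (b : Finset (XT s neg z × YT s Δ pos neg τ)) :
    b ∈ BB2 s Δ pos neg z τ H f ↔
      ∃ p q, b = {p, q} ∧ Cls f p ∧ Cls f q ∧ Bad2 H f p q := by
  unfold BB2
  simp only [mem_filter, mem_univ, true_and]

open Classical in
theorem b1_card (P : XT s neg z × YT s Δ pos neg τ → Prop)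
    (R : Finset (XT s neg z × YT s Δ pos neg τ) → Prop) (hR : ∀ b, R b → ∃ p ∈ b, P p) :
    ((BB1 s Δ pos neg z τ H f).filter R).card ≤
    (univ.filter (fun p : XT s neg z × YT s Δ pos neg τ => Cls f p ∧ Bad1 H f p ∧ P p)).card := by
  refine le_trans (card_le_card (t := (univ.filter (fun p : XT s neg z × YT s Δ pos neg τ =>
    Cls f p ∧ Bad1 H f p ∧ P p)).image (fun p => {p})) ?_) card_image_le
  intro b hb
  rw [mem_filter, mem_BB1] at hb
  obtain ⟨⟨p, rfl, h1, h2⟩, hr⟩ := hb
  obtain ⟨q, hq, h3⟩ := hR _ hr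
  rw [mem_singleton] at hq
  subst hq
  simp only [mem_image, mem_filter, mem_univ, true_and]
  exact ⟨q, ⟨h1, h2, h3⟩, rfl⟩

open Classical in
theorem b2_card (hS : Setting V H f s Δ D) (P : XT s neg z × YT s Δ pos neg τ → Prop)
    (R : Finset (XT s neg z × YT s Δ pos neg τ) → Prop) (hR : ∀ b, R b → ∃ p ∈ b, P p) (N : ℕ)
    (hN : (univ.filter (fun p : XT s neg z × YT s Δ pos neg τ => Cls f p ∧ P p)).card ≤ N) :
    ((BB2 s Δ pos neg z τ H f).filter R).card ≤ N * (D * 3) := by
  have hsub : ((BB2 s Δ pos neg z τ H f).filter R) ⊆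
      (univ.filter (fun p : XT s neg z × YT s Δ pos neg τ => Cls f p ∧ P p)).biUnion
        (fun p => (univ.filter (fun q : XT s neg z × YT s Δ pos neg τ =>
          Cls f q ∧ Bad2 H f p q)).image (fun q => {p, q})) := by
    intro b hb
    rw [mem_filter, mem_BB2] at hb
    obtain ⟨⟨p, q, rfl, h1, h2, h3⟩, hr0⟩ := hb
    obtain ⟨r, hr, h4⟩ := hR _ hr0
    simp only [mem_biUnion, mem_image, mem_filter, mem_univ, true_and]
    rw [mem_insert, mem_singleton] at hr
    rcases hr with rfl | rfl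
    · exact ⟨r, ⟨h1, h4⟩, q, ⟨h2, h3⟩, rfl⟩
    · exact ⟨r, ⟨h2, h4⟩, p, ⟨h1, bad2_symm h3⟩, pair_comm _ _⟩
  refine le_trans (card_le_card hsub) (le_trans card_biUnion_le ?_)
  refine le_trans (sum_le_card_nsmul _ _ (D * 3) ?_) ?_
  · intro v _
    exact le_trans card_image_le (q_card hS _)
  · rw [smul_eq_mul]
    exact Nat.mul_le_mul_right _ hN

open Classical in
theorem pv_card (v : XT s neg z) (P : XT s neg z × YT s Δ pos neg τ → Prop)
    (hP : ∀ p, P p → p.1 = v) :
    (univ.filter (fun p : XT s neg z × YT s Δ pos neg τ => Cls f p ∧ P p)).card ≤ Δ := by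
  have h : (univ : Finset (Fin Δ)).card = Δ := by simp
  refine le_trans (card_le_card_of_injOn (t := (univ : Finset (Fin Δ))) (fun p => p.2.1.2)
    (fun _ _ => mem_coe.mpr (mem_univ _)) ?_) (le_of_eq h)
  intro p hp p' hp' h
  simp only [coe_filter, mem_univ, true_and, Set.mem_ofPred_eq] at hp hp'
  have b1 := hP p hp.2
  have b2 := hP p' hp'.2
  refine Prod.ext (by rw [b1, b2]) (Subtype.ext (Prod.ext (Fin.ext ?_) h))
  have a1 := hp.1
  have a2 := hp'.1
  unfold Cls at a1 a2
  rw [← a1, ← a2, b1, b2]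

open Classical in
theorem pw_card (hS : Setting V H f s Δ D) (w : YT s Δ pos neg τ)
    (P : XT s neg z × YT s Δ pos neg τ → Prop) (hP : ∀ p, P p → p.2 = w) :
    (univ.filter (fun p : XT s neg z × YT s Δ pos neg τ => Cls f p ∧ P p)).card ≤ Δ + D := by
  refine le_trans ?_ (hS.hupp w.1.1.val w.1.1.2)
  rw [natcard_eq]
  refine card_le_card_of_injOn (fun p => p.1.1) ?_ ?_
  · intro p hp
    simp only [coe_filter, mem_univ, true_and, Set.mem_ofPred_eq] at hp ⊢
    have a1 := hp.1
    unfold Cls at a1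
    rw [a1, hP p hp.2]
  · intro p hp p' hp' h
    simp only [coe_filter, mem_univ, true_and, Set.mem_ofPred_eq] at hp hp'
    exact Prod.ext (Subtype.ext h) (by rw [hP p hp.2, hP p' hp'.2])

open Classical in
theorem b1v_card (hS : Setting V H f s Δ D) (hz : Function.Injective z) (v : XT s neg z)
    (P : XT s neg z × YT s Δ pos neg τ → Prop) (hP : ∀ p, P p → p.1 = v) :
    (univ.filter (fun p : XT s neg z × YT s Δ pos neg τ =>
      Cls f p ∧ Bad1 H f p ∧ P p)).card ≤ D * 3 := by
  set J := univ.filter (fun j : E × Bool × Bool => f (z j) ≠ f v.1 ∧ H.Adj v.1 (z j)) with hJ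
  have hJc : J.card ≤ D := by
    refine le_trans ?_ (hS.hout v.1)
    rw [natcard_eq]
    refine card_le_card_of_injOn z ?_ (hz.injOn)
    intro j hj
    simp only [hJ, coe_filter, mem_univ, true_and, Set.mem_ofPred_eq] at hj ⊢
    exact hj
  have hsub : (univ.filter (fun p : XT s neg z × YT s Δ pos neg τ =>
      Cls f p ∧ Bad1 H f p ∧ P p)) ⊆
      J.biUnion (fun j => (univ.filter (fun w : YT s Δ pos neg τ => w.1.1.val = f v.1 ∧
        Nr Δ (rowz pos neg τ j) w.1.2.val)).image (fun w => (v, w))) := by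
    intro p hp
    simp only [mem_filter, mem_univ, true_and] at hp
    obtain ⟨h1, ⟨j, h2, h3, h4, h5⟩, h6⟩ := hp
    have h7 := hP p h6
    subst h7
    simp only [mem_biUnion, mem_image, mem_filter, mem_univ, true_and, hJ]
    exact ⟨j, ⟨h3, h4.symm⟩, p.2, ⟨h1.symm, h5⟩, rfl⟩
  refine le_trans (card_le_card hsub) (le_trans card_biUnion_le ?_)
  refine le_trans (sum_le_card_nsmul _ _ 3 ?_) ?_
  · intro v _
    exact le_trans card_image_le (cell_card _ _)
  · rw [smul_eq_mul]
    exact Nat.mul_le_mul_right 3 hJc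

open Classical in
theorem b1w_card (hτ : ∀ e, 3 * τ e + 3 ≤ Δ)
    (hload : ∀ j t, Nat.card {p : E × V × V // τ p.1 = t ∧ Sp s neg z p.1 p.2.1 ∧
      f p.2.2 = j ∧ f p.2.1 ≠ j ∧ H.Adj p.2.1 p.2.2} ≤ 200 * (4 * D + 4))
    (w : YT s Δ pos neg τ) (P : XT s neg z × YT s Δ pos neg τ → Prop)
    (hP : ∀ p, P p → p.2 = w) :
    (univ.filter (fun p : XT s neg z × YT s Δ pos neg τ =>
      Cls f p ∧ Bad1 H f p ∧ P p)).card ≤ 3 * (200 * (4 * D + 4)) := by
  set T := (univ.filter (fun g : Fin Δ => Nr Δ w.1.2.val g.val)).image (fun g => g.val / 3)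
    with hT
  have hTc : T.card ≤ 3 := le_trans card_image_le (nr_card _ _)
  have h1 : (univ.filter (fun p : XT s neg z × YT s Δ pos neg τ =>
      Cls f p ∧ Bad1 H f p ∧ P p)).card ≤
      (T.biUnion (fun t => (univ.filter (fun p : E × V × V => τ p.1 = t ∧
        Sp s neg z p.1 p.2.1 ∧ f p.2.2 = w.1.1.val ∧ f p.2.1 ≠ w.1.1.val ∧
        H.Adj p.2.1 p.2.2)).image (fun p => p.2.2))).card := by
    refine card_le_card_of_injOn (fun p => p.1.1) ?_ ?_
    · intro p hp
      simp only [coe_filter, mem_univ, true_and, Set.mem_ofPred_eq] at hp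
      obtain ⟨h1, ⟨j, h2, h3, h4, h5⟩, h0⟩ := hp
      have h7 := hP p h0
      subst h7
      simp only [mem_coe, mem_biUnion, mem_image, mem_filter, mem_univ, true_and, hT]
      have h6 : f p.1.1 = p.2.1.1.val := h1
      refine ⟨τ j.1, ⟨⟨rowz pos neg τ j, rowz_lt hτ j⟩, nr_symm h5, rowz_div j⟩,
        (j.1, z j, p.1.1), ⟨rfl, spI_sp h2, h6, ?_, h4⟩, rfl⟩
      rw [← h6]
      exact h3
    · intro p hp p' hp' h
      simp only [coe_filter, mem_univ, true_and, Set.mem_ofPred_eq] at hp hp'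
      exact Prod.ext (Subtype.ext h) (by rw [hP p hp.2.2, hP p' hp'.2.2])
  refine le_trans h1 (le_trans card_biUnion_le ?_)
  refine le_trans (sum_le_card_nsmul _ _ (200 * (4 * D + 4)) ?_) ?_
  · intro t _
    refine le_trans card_image_le ?_
    have := hload w.1.1.val t
    rw [natcard_eq] at this
    exact this
  · rw [smul_eq_mul]
    exact Nat.mul_le_mul_right _ hTc

end Main

open Classical in
theorem sum_bound {α : Type} (B1 B2 : Finset (Finset α)) (P : Finset α → Prop) (h : α → ℝ)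
    (q : ℝ) (hq : 0 ≤ q) (h0 : ∀ a, 0 ≤ h a) (hh : ∀ b ∈ B1 ∪ B2, ∀ a ∈ b, h a ≤ q)
    (h1 : ∀ b ∈ B1, b.card = 1) (h2 : ∀ b ∈ B2, b.card = 2) (N1 N2 : ℕ)
    (hN1 : (B1.filter P).card ≤ N1) (hN2 : (B2.filter P).card ≤ N2) :
    ∑ b ∈ (B1 ∪ B2).filter P, ∏ a ∈ b, h a ≤ N1 * q + N2 * q ^ 2 := by
  have hnn : ∀ b : Finset α, 0 ≤ ∏ a ∈ b, h a := fun b => prod_nonneg fun a _ => h0 a
  have hle : ∀ b ∈ B1 ∪ B2, ∏ a ∈ b, h a ≤ q ^ b.card := by
    intro b hb
    rw [← prod_const]
    exact prod_le_prod (fun a _ => h0 a) (fun a ha => hh b hb a ha)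
  have e1 : ∑ b ∈ (B1 ∪ B2).filter P, ∏ a ∈ b, h a ≤
      ∑ b ∈ B1.filter P, ∏ a ∈ b, h a + ∑ b ∈ B2.filter P, ∏ a ∈ b, h a := by
    rw [filter_union, ← sum_union_inter]
    have : 0 ≤ ∑ b ∈ B1.filter P ∩ B2.filter P, ∏ a ∈ b, h a := sum_nonneg fun b _ => hnn b
    linarith
  have e2 : ∑ b ∈ B1.filter P, ∏ a ∈ b, h a ≤ N1 * q := by
    refine le_trans (sum_le_card_nsmul _ _ q ?_) ?_
    · intro b hb
      rw [mem_filter] at hb
      have := hle b (mem_union_left _ hb.1)
      rw [h1 b hb.1, pow_one] at this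
      exact this
    · rw [nsmul_eq_mul]
      exact mul_le_mul_of_nonneg_right (by exact_mod_cast hN1) hq
  have e3 : ∑ b ∈ B2.filter P, ∏ a ∈ b, h a ≤ N2 * q ^ 2 := by
    refine le_trans (sum_le_card_nsmul _ _ (q ^ 2) ?_) ?_
    · intro b hb
      rw [mem_filter] at hb
      have := hle b (mem_union_right _ hb.1)
      rw [h2 b hb.1] at this
      exact this
    · rw [nsmul_eq_mul]
      exact mul_le_mul_of_nonneg_right (by exact_mod_cast hN2) (by positivity)
  linarith

end Pool.Agent.Helper48.Sey4
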